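import Mathlib

/-!
# Sets of integers computed with few unions, sums and differences

`rep F N` counts the `x ∈ F` with `N - x ∈ F`, `mx F` is the largest value of `rep F`.
-/

namespace Pool.Agent.W305.ET

open Finset Pointwise

/-- number of `x ∈ F` with `N - x ∈ F` -/
def rep (F : Finset ℤ) (N : ℤ) : ℕ := (F.filter (fun x => N - x ∈ F)).card

/-- the largest value of `rep F` -/
def mx (F : Finset ℤ) : ℕ := (F + F).sup (rep F)

lemma rep_le_mx (F : Finset ℤ) (N : ℤ) : rep F N ≤ mx F := by
  by_cases h : N ∈ F + F
  · exact Finset.le_sup (f := rep F) h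
  · have : rep F N = 0 := by
      unfold rep
      rw [Finset.card_eq_zero, Finset.filter_eq_empty_iff]
      intro x hx hx'
      apply h
      rw [Finset.mem_add]
      exact ⟨x, hx, N - x, hx', by ring⟩
    omega

lemma exists_rep_eq (F : Finset ℤ) (hF : F.Nonempty) : ∃ N, rep F N = mx F := by
  obtain ⟨N, _, hN⟩ := Finset.exists_mem_eq_sup (F + F) (hF.add hF) (rep F)
  exact ⟨N, hN.symm⟩

lemma mx_mono {F G : Finset ℤ} (h : F ⊆ G) : mx F ≤ mx G := by
  by_cases hF : F.Nonempty
  · obtain ⟨N, hN⟩ := exists_rep_eq F hF
    rw [← hN]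
    refine le_trans ?_ (rep_le_mx G N)
    unfold rep
    apply Finset.card_le_card
    intro x hx
    rw [Finset.mem_filter] at hx ⊢
    exact ⟨h hx.1, h hx.2⟩
  · rw [Finset.not_nonempty_iff_eq_empty] at hF
    subst hF
    simp [mx]

lemma mx_pos {F : Finset ℤ} (hF : F.Nonempty) : 1 ≤ mx F := by
  obtain ⟨x, hx⟩ := hF
  refine le_trans ?_ (rep_le_mx F (x + x))
  unfold rep
  rw [Nat.one_le_iff_ne_zero, Finset.card_ne_zero]
  exact ⟨x, by simp [hx]⟩

lemma two_le_mx {F : Finset ℤ} {x y : ℤ} (hx : x ∈ F) (hy : y ∈ F) (hxy : x ≠ y) : 2 ≤ mx F := by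
  refine le_trans ?_ (rep_le_mx F (x + y))
  unfold rep
  have : ({x, y} : Finset ℤ) ⊆ F.filter (fun z => x + y - z ∈ F) := by
    intro z hz
    rw [Finset.mem_insert, Finset.mem_singleton] at hz
    rw [Finset.mem_filter]
    rcases hz with rfl | rfl
    · exact ⟨hx, by simpa using hy⟩
    · exact ⟨hy, by simpa using hx⟩
  calc 2 = ({x, y} : Finset ℤ).card := (Finset.card_pair hxy).symm
    _ ≤ _ := Finset.card_le_card this

lemma card_le_one_of_mx {F : Finset ℤ} (h : mx F ≤ 1) : F.card ≤ 1 := by
  rw [Finset.card_le_one]
  intro a ha b hb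
  by_contra hab
  have := two_le_mx ha hb hab
  omega

/-- superadditivity -/
lemma mx_add (F G : Finset ℤ) (hF : F.Nonempty) (hG : G.Nonempty) :
    mx F + mx G ≤ mx (F + G) + 1 := by
  obtain ⟨M, hM⟩ := exists_rep_eq F hF
  obtain ⟨N, hN⟩ := exists_rep_eq G hG
  set X := F.filter (fun x => M - x ∈ F) with hX
  set Y := G.filter (fun x => N - x ∈ G) with hY
  have hXc : X.card = mx F := hM
  have hYc : Y.card = mx G := hN
  have hXn : X.Nonempty := by
    rw [← Finset.card_pos, hXc]; exact mx_pos hF
  have hYn : Y.Nonempty := by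
    rw [← Finset.card_pos, hYc]; exact mx_pos hG
  have h1 : X.card + Y.card - 1 ≤ (X + Y).card :=
    cauchy_davenport_add_of_linearOrder_isCancelAdd hXn hYn
  have h2 : (X + Y).card ≤ rep (F + G) (M + N) := by
    unfold rep
    apply Finset.card_le_card
    intro z hz
    rw [Finset.mem_add] at hz
    obtain ⟨x, hx, y, hy, rfl⟩ := hz
    rw [hX, Finset.mem_filter] at hx
    rw [hY, Finset.mem_filter] at hy
    rw [Finset.mem_filter]
    refine ⟨Finset.add_mem_add hx.1 hy.1, ?_⟩
    have : M + N - (x + y) = (M - x) + (N - y) := by ring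
    rw [this]
    exact Finset.add_mem_add hx.2 hy.2
  have h3 := rep_le_mx (F + G) (M + N)
  omega

lemma mx_neg (F : Finset ℤ) : mx (-F) = mx F := by
  have key : ∀ F : Finset ℤ, mx F ≤ mx (-F) := by
    intro F
    by_cases hF : F.Nonempty
    · obtain ⟨N, hN⟩ := exists_rep_eq F hF
      rw [← hN]
      refine le_trans ?_ (rep_le_mx (-F) (-N))
      unfold rep
      refine Finset.card_le_card_of_injOn (fun x => -x) ?_ ?_
      · intro x hx
        rw [Finset.mem_coe, Finset.mem_filter] at hx
        rw [Finset.mem_coe, Finset.mem_filter, Finset.mem_neg', Finset.mem_neg', neg_neg]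
        refine ⟨hx.1, ?_⟩
        have : -(-N - -x) = N - x := by ring
        rw [this]; exact hx.2
      · intro x _ y _ h
        simpa using h
    · rw [Finset.not_nonempty_iff_eq_empty] at hF
      subst hF; simp [mx]
  refine le_antisymm ?_ (key F)
  have := key (-F)
  rwa [neg_neg] at this

lemma mx_sub (F G : Finset ℤ) (hF : F.Nonempty) (hG : G.Nonempty) :
    mx F + mx G ≤ mx (F - G) + 1 := by
  have := mx_add F (-G) hF hG.neg
  rwa [mx_neg, ← sub_eq_add_neg] at this

/-- A straight-line computation of length `S`: every set `F i`, `i < S`, is a singleton or the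
union, the sum or the difference of two sets computed before. -/
def IsComp (S : ℕ) (F : ℕ → Finset ℤ) : Prop :=
  ∀ i < S, (∃ c : ℤ, F i = {c}) ∨
    ∃ j < i, ∃ k < i, F i = F j ∪ F k ∨ F i = F j + F k ∨ F i = F j - F k

lemma IsComp.nonempty {S : ℕ} {F : ℕ → Finset ℤ} (h : IsComp S F) :
    ∀ i < S, (F i).Nonempty := by
  intro i
  induction i using Nat.strong_induction_on with
  | _ i ih =>
    intro hi
    rcases h i hi with ⟨c, hc⟩ | ⟨j, hj, k, hk, h1 | h1 | h1⟩
    · rw [hc]; simp
    · rw [h1]; exact (ih j hj (by omega)).mono Finset.subset_union_left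
    · rw [h1]; exact (ih j hj (by omega)).add (ih k hk (by omega))
    · rw [h1]; exact (ih j hj (by omega)).sub (ih k hk (by omega))

/-- the bound for the number of elements -/
def bd (S : ℕ) : ℕ → ℕ
  | 0 => 1
  | d + 1 => (4 * S) ^ (2 * d + 1)

lemma bd_mono {S : ℕ} (hS : 1 ≤ S) : Monotone (bd S) := by
  apply monotone_nat_of_le_succ
  intro n
  cases n with
  | zero => simp only [bd]; exact Nat.one_le_pow _ _ (by omega)
  | succ n =>
    simp only [bd]
    exact Nat.pow_le_pow_right (by omega) (by omega)

lemma bd_mul {S : ℕ} (hS : 1 ≤ S) {a b d : ℕ} (ha : a ≤ d) (hb : b ≤ d) (hab : a + b ≤ d + 1) :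
    bd S a * bd S b ≤ (4 * S) ^ (2 * d) := by
  cases a with
  | zero =>
    simp only [bd, one_mul]
    cases b with
    | zero => simp only [bd]; exact Nat.one_le_pow _ _ (by omega)
    | succ b => simp only [bd]; exact Nat.pow_le_pow_right (by omega) (by omega)
  | succ a =>
    cases b with
    | zero => simp only [bd, mul_one]; exact Nat.pow_le_pow_right (by omega) (by omega)
    | succ b =>
      simp only [bd]
      rw [← pow_add]
      exact Nat.pow_le_pow_right (by omega) (by omega)

lemma two_bd {S : ℕ} (hS : 1 ≤ S) (d : ℕ) : bd S d + bd S d ≤ 2 * (4 * S) ^ (2 * d) := by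
  cases d with
  | zero => simp [bd]
  | succ d =>
    simp only [bd]
    have : (4 * S) ^ (2 * d + 1) ≤ (4 * S) ^ (2 * (d + 1)) :=
      Nat.pow_le_pow_right (by omega) (by omega)
    omega

/-- the local step: each heavy gate has a small part `E`, the rest comes from heavy gates
below it by a translation or a reflection -/
lemma local_step {S : ℕ} {F : ℕ → Finset ℤ} (h : IsComp S F) (d : ℕ)
    (ih : ∀ a ≤ d, ∀ i < S, mx (F i) ≤ a + 1 → (F i).card ≤ bd S a)
    (u : ℕ) (hu : u < S) (hd : mx (F u) = d + 2) :
    ∃ E : Finset ℤ, E.card ≤ 2 * (4 * S) ^ (2 * d) ∧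
      ∀ x ∈ F u, x ∈ E ∨ ∃ v < u, mx (F v) = d + 2 ∧ ∃ s : ℤ, (s = 1 ∨ s = -1) ∧ ∃ c : ℤ,
        (∀ y ∈ F v, s * y + c ∈ F u) ∧ ∃ y ∈ F v, x = s * y + c := by
  have hS : 1 ≤ S := by omega
  have hne := h.nonempty
  rcases h u hu with ⟨c, hc⟩ | ⟨j, hj, k, hk, h1⟩
  · exfalso
    have : mx (F u) ≤ 1 := by
      rw [hc]
      unfold mx
      apply Finset.sup_le
      intro N _
      unfold rep
      exact le_trans (Finset.card_filter_le _ _) (by simp)
    omega
  · have hjS : j < S := by omega
    have hkS : k < S := by omega
    have hjn := hne j hjS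
    have hkn := hne k hkS
    have hj1 := mx_pos hjn
    have hk1 := mx_pos hkn
    rcases h1 with h1 | h1
    · -- union
      have hjm : mx (F j) ≤ d + 2 := by
        rw [← hd, h1]; exact mx_mono Finset.subset_union_left
      have hkm : mx (F k) ≤ d + 2 := by
        rw [← hd, h1]; exact mx_mono Finset.subset_union_right
      refine ⟨(if mx (F j) ≤ d + 1 then F j else ∅) ∪ (if mx (F k) ≤ d + 1 then F k else ∅),
        ?_, ?_⟩
      · refine le_trans (Finset.card_union_le _ _) (le_trans (add_le_add ?_ ?_) (two_bd hS d))
        · split_ifs with hh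
          · exact ih d le_rfl j hjS hh
          · simp
        · split_ifs with hh
          · exact ih d le_rfl k hkS hh
          · simp
      · intro x hx
        rw [h1, Finset.mem_union] at hx
        rcases hx with hx | hx
        · by_cases hh : mx (F j) ≤ d + 1
          · left; rw [Finset.mem_union, if_pos hh]; exact Or.inl hx
          · right
            refine ⟨j, hj, by omega, 1, Or.inl rfl, 0, ?_, x, hx, by ring⟩
            intro y hy
            rw [h1, Finset.mem_union]
            left; simpa using hy
        · by_cases hh : mx (F k) ≤ d + 1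
          · left; rw [Finset.mem_union, if_pos hh]; exact Or.inr hx
          · right
            refine ⟨k, hk, by omega, 1, Or.inl rfl, 0, ?_, x, hx, by ring⟩
            intro y hy
            rw [h1, Finset.mem_union]
            right; simpa using hy
    · -- sum or difference
      have hsum : mx (F j) + mx (F k) ≤ d + 3 := by
        rcases h1 with h1 | h1
        · have := mx_add (F j) (F k) hjn hkn
          rw [← h1, hd] at this; omega
        · have := mx_sub (F j) (F k) hjn hkn
          rw [← h1, hd] at this; omega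
      have hcard : (F u).card ≤ (F j).card * (F k).card := by
        rcases h1 with h1 | h1
        · rw [h1]; exact Finset.card_add_le
        · rw [h1]; exact Finset.card_sub_le
      by_cases hsmall : mx (F j) ≤ d + 1 ∧ mx (F k) ≤ d + 1
      · refine ⟨F u, ?_, fun x hx => Or.inl hx⟩
        obtain ⟨a, ha⟩ : ∃ a, mx (F j) = a + 1 := ⟨mx (F j) - 1, by omega⟩
        obtain ⟨b, hb⟩ : ∃ b, mx (F k) = b + 1 := ⟨mx (F k) - 1, by omega⟩
        have h2 := ih a (by omega) j hjS (by omega)
        have h3 := ih b (by omega) k hkS (by omega)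
        have h4 : bd S a * bd S b ≤ (4 * S) ^ (2 * d) := bd_mul hS (by omega) (by omega) (by omega)
        calc (F u).card ≤ (F j).card * (F k).card := hcard
          _ ≤ bd S a * bd S b := Nat.mul_le_mul h2 h3
          _ ≤ (4 * S) ^ (2 * d) := h4
          _ ≤ 2 * (4 * S) ^ (2 * d) := by omega
      · refine ⟨∅, by simp, ?_⟩
        intro x hx
        right
        by_cases hjb : mx (F j) ≤ d + 1
        · -- `F j` is a singleton
          have hkb : mx (F k) = d + 2 := by
            have : ¬ mx (F k) ≤ d + 1 := fun hh => hsmall ⟨hjb, hh⟩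
            omega
          have hj2 : (F j).card ≤ 1 := card_le_one_of_mx (by omega)
          obtain ⟨a, ha⟩ := Finset.card_eq_one.1 (le_antisymm hj2 (Finset.card_pos.2 hjn))
          rcases h1 with h1 | h1
          · refine ⟨k, hk, hkb, 1, Or.inl rfl, a, ?_, ?_⟩
            · intro y hy
              rw [h1, ha]
              have : 1 * y + a = a + y := by ring
              rw [this]
              exact Finset.add_mem_add (Finset.mem_singleton_self a) hy
            · rw [h1, ha, Finset.mem_add] at hx
              obtain ⟨a', ha', y, hy, rfl⟩ := hx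
              rw [Finset.mem_singleton] at ha'
              exact ⟨y, hy, by rw [ha']; ring⟩
          · refine ⟨k, hk, hkb, -1, Or.inr rfl, a, ?_, ?_⟩
            · intro y hy
              rw [h1, ha]
              have : -1 * y + a = a - y := by ring
              rw [this]
              exact Finset.sub_mem_sub (Finset.mem_singleton_self a) hy
            · rw [h1, ha, Finset.mem_sub] at hx
              obtain ⟨a', ha', y, hy, rfl⟩ := hx
              rw [Finset.mem_singleton] at ha'
              exact ⟨y, hy, by rw [ha']; ring⟩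
        · have hjb' : mx (F j) = d + 2 := by omega
          have hk2 : (F k).card ≤ 1 := card_le_one_of_mx (by omega)
          obtain ⟨a, ha⟩ := Finset.card_eq_one.1 (le_antisymm hk2 (Finset.card_pos.2 hkn))
          rcases h1 with h1 | h1
          · refine ⟨j, hj, hjb', 1, Or.inl rfl, a, ?_, ?_⟩
            · intro y hy
              rw [h1, ha]
              have : 1 * y + a = y + a := by ring
              rw [this]
              exact Finset.add_mem_add hy (Finset.mem_singleton_self a)
            · rw [h1, ha, Finset.mem_add] at hx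
              obtain ⟨y, hy, a', ha', rfl⟩ := hx
              rw [Finset.mem_singleton] at ha'
              exact ⟨y, hy, by rw [ha']; ring⟩
          · refine ⟨j, hj, hjb', 1, Or.inl rfl, -a, ?_, ?_⟩
            · intro y hy
              rw [h1, ha]
              have : 1 * y + -a = y - a := by ring
              rw [this]
              exact Finset.sub_mem_sub hy (Finset.mem_singleton_self a)
            · rw [h1, ha, Finset.mem_sub] at hx
              obtain ⟨y, hy, a', ha', rfl⟩ := hx
              rw [Finset.mem_singleton] at ha'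
              exact ⟨y, hy, by rw [ha']; ring⟩

/-- two different translates of (a reflection of) `G` inside `F` increase `mx` -/
lemma unique_ctx {F G : Finset ℤ} (hG : G.Nonempty) (hm : mx F ≤ mx G) {s : ℤ}
    (hs : s = 1 ∨ s = -1) {c c' : ℤ} (h : ∀ y ∈ G, s * y + c ∈ F)
    (h' : ∀ y ∈ G, s * y + c' ∈ F) : c = c' := by
  by_contra hcc
  have key : ∀ H : Finset ℤ, H.Nonempty → (∀ y ∈ H, y + c ∈ F) → (∀ y ∈ H, y + c' ∈ F) →
      mx H + 1 ≤ mx F := by
    intro H hH h1 h2
    have h3 : ({c, c'} : Finset ℤ) + H ⊆ F := by
      intro z hz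
      rw [Finset.mem_add] at hz
      obtain ⟨a, ha, y, hy, rfl⟩ := hz
      rw [Finset.mem_insert, Finset.mem_singleton] at ha
      rcases ha with rfl | rfl
      · rw [add_comm]; exact h1 y hy
      · rw [add_comm]; exact h2 y hy
    have h4 := mx_mono h3
    have h5 := mx_add {c, c'} H ⟨c, by simp⟩ hH
    have h6 : 2 ≤ mx ({c, c'} : Finset ℤ) :=
      two_le_mx (x := c) (y := c') (by simp) (by simp) hcc
    omega
  rcases hs with rfl | rfl
  · have := key G hG (fun y hy => by simpa using h y hy) (fun y hy => by simpa using h' y hy)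
    omega
  · have h7 := key (-G) hG.neg
      (fun y hy => by
        rw [Finset.mem_neg'] at hy
        have := h _ hy
        have e : -1 * -y + c = y + c := by ring
        rwa [e] at this)
      (fun y hy => by
        rw [Finset.mem_neg'] at hy
        have := h' _ hy
        have e : -1 * -y + c' = y + c' := by ring
        rwa [e] at this)
    rw [mx_neg] at h7
    omega

/-- **Main lemma.** A set computed with `S` operations has at most `(4S)^(2m-3)` elements, if
no number has more than `m` representations as a sum of two elements. -/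
theorem card_le {S : ℕ} {F : ℕ → Finset ℤ} (h : IsComp S F) :
    ∀ d : ℕ, ∀ i < S, mx (F i) ≤ d + 1 → (F i).card ≤ bd S d := by
  intro d
  induction d using Nat.strong_induction_on with
  | _ d ih =>
    intro i hi hm
    have hS : 1 ≤ S := by omega
    cases d with
    | zero => simpa [bd] using card_le_one_of_mx (by omega)
    | succ d =>
      by_cases hlt : mx (F i) ≤ d + 1
      · exact le_trans (ih d (by omega) i hi hlt) (bd_mono hS (by omega))
      have hmi : mx (F i) = d + 2 := by omega
      have loc := fun u (hu : u < S) (hd : mx (F u) = d + 2) =>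
        local_step h d (fun a ha i hi hm => ih a (by omega) i hi hm) u hu hd
      choose! E hEc hE using loc
      -- covering
      have cover : ∀ u < S, mx (F u) = d + 2 → ∀ x ∈ F u, ∃ v < S, mx (F v) = d + 2 ∧
          ∃ s : ℤ, (s = 1 ∨ s = -1) ∧ ∃ c : ℤ, (∀ y ∈ F v, s * y + c ∈ F u) ∧
            ∃ y ∈ E v, x = s * y + c := by
        intro u
        induction u using Nat.strong_induction_on with
        | _ u ihu =>
          intro hu hd x hx
          rcases hE u hu hd x hx with hx' | ⟨v, hv, hvm, s, hs, c, hc, y, hy, hxy⟩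
          · exact ⟨u, hu, hd, 1, Or.inl rfl, 0, fun y hy => by simpa using hy, x, hx', by ring⟩
          · obtain ⟨w, hw, hwm, s', hs', c', hc', z, hz, hyz⟩ := ihu v hv (by omega) hvm y hy
            refine ⟨w, hw, hwm, s * s', ?_, s * c' + c, ?_, z, hz, ?_⟩
            · rcases hs with rfl | rfl <;> rcases hs' with rfl | rfl <;> simp
            · intro t ht
              have := hc _ (hc' t ht)
              have e : s * s' * t + (s * c' + c) = s * (s' * t + c') + c := by ring
              rw [e]; exact this
            · rw [hxy, hyz]; ring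
      -- unique contexts
      have hne := h.nonempty
      classical
      let ctx : ℕ → ℤ → ℤ := fun v s =>
        if hh : ∃ c : ℤ, ∀ y ∈ F v, s * y + c ∈ F i then hh.choose else 0
      have hsub : F i ⊆ ((Finset.range S).filter (fun v => mx (F v) = d + 2) ×ˢ
          ({1, -1} : Finset ℤ)).biUnion
            (fun p => (E p.1).image (fun y => p.2 * y + ctx p.1 p.2)) := by
        intro x hx
        obtain ⟨v, hv, hvm, s, hs, c, hc, y, hy, hxy⟩ := cover i hi hmi x hx
        rw [Finset.mem_biUnion]
        refine ⟨(v, s), ?_, ?_⟩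
        · rw [Finset.mem_product, Finset.mem_filter, Finset.mem_range]
          refine ⟨⟨hv, hvm⟩, ?_⟩
          rcases hs with rfl | rfl <;> simp
        · rw [Finset.mem_image]
          refine ⟨y, hy, ?_⟩
          have hh : ∃ c : ℤ, ∀ y ∈ F v, s * y + c ∈ F i := ⟨c, hc⟩
          have h1 : ctx v s = hh.choose := by simp only [ctx]; rw [dif_pos hh]
          have h2 : ctx v s = c := by
            rw [h1]
            exact unique_ctx (hne v hv) (by omega) hs hh.choose_spec hc
          rw [hxy, h2]
      have h1 : (F i).card ≤ ∑ p ∈ ((Finset.range S).filter (fun v => mx (F v) = d + 2) ×ˢ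
          ({1, -1} : Finset ℤ)), 2 * (4 * S) ^ (2 * d) := by
        refine le_trans (Finset.card_le_card hsub) (le_trans Finset.card_biUnion_le ?_)
        apply Finset.sum_le_sum
        intro p hp
        rw [Finset.mem_product, Finset.mem_filter, Finset.mem_range] at hp
        exact le_trans Finset.card_image_le (hEc p.1 hp.1.1 hp.1.2)
      have h2 : ((Finset.range S).filter (fun v => mx (F v) = d + 2) ×ˢ
          ({1, -1} : Finset ℤ)).card ≤ S * 2 := by
        rw [Finset.card_product]
        apply Nat.mul_le_mul
        · exact le_trans (Finset.card_filter_le _ _) (by simp)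
        · exact Finset.card_le_two
      rw [Finset.sum_const, smul_eq_mul] at h1
      calc (F i).card ≤ _ := h1
        _ ≤ S * 2 * (2 * (4 * S) ^ (2 * d)) := Nat.mul_le_mul_right _ h2
        _ = (4 * S) ^ (2 * d + 1) := by ring
        _ = bd S (d + 1) := rfl

end Pool.Agent.W305.ET
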