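import Pool.Agent.W305.ET.Circ

/-!
# Sets of integers computed with few unions, sums and differences: large symmetric subsets

`Sym W F d`: the finite set `F` contains a symmetric set `X` with `2 ^ d` elements whose nonzero
differences avoid `W`.  A set computed with `S` operations without `Sym {0} F (d + 1)` has at most
`(4 S 4^d) ^ (4 d - 1)` elements (`card_le_sym`).
-/

namespace Pool.Agent.W305.ET

open Finset Pointwise

/-- `F` contains a symmetric set with `2 ^ d` elements whose nonzero differences avoid `W` -/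
def Sym (W F : Finset ℤ) (d : ℕ) : Prop :=
  ∃ X : Finset ℤ, X ⊆ F ∧ (∃ M : ℤ, ∀ x ∈ X, M - x ∈ X) ∧ X.card = 2 ^ d ∧
    ∀ x ∈ X, ∀ y ∈ X, x - y ∈ W → x = y

lemma Sym.mono {W F G : Finset ℤ} {d : ℕ} (h : Sym W F d) (hFG : F ⊆ G) : Sym W G d := by
  obtain ⟨X, h1, h2, h3, h4⟩ := h
  exact ⟨X, h1.trans hFG, h2, h3, h4⟩

lemma sym_zero {W F : Finset ℤ} (hF : F.Nonempty) : Sym W F 0 := by
  obtain ⟨x, hx⟩ := hF
  refine ⟨{x}, by simpa using hx, ⟨x + x, ?_⟩, by simp, ?_⟩
  · intro y hy
    rw [Finset.mem_singleton] at hy ⊢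
    omega
  · intro y hy z hz _
    rw [Finset.mem_singleton] at hy hz
    omega

lemma sym_one {W F : Finset ℤ} {x y : ℤ} (hx : x ∈ F) (hy : y ∈ F) (hxy : x ≠ y)
    (h1 : x - y ∉ W) (h2 : y - x ∉ W) : Sym W F 1 := by
  refine ⟨{x, y}, ?_, ⟨x + y, ?_⟩, by rw [Finset.card_pair hxy]; norm_num, ?_⟩
  · intro z hz
    rw [Finset.mem_insert, Finset.mem_singleton] at hz
    rcases hz with rfl | rfl
    · exact hx
    · exact hy
  · intro z hz
    rw [Finset.mem_insert, Finset.mem_singleton] at hz ⊢
    rcases hz with rfl | rfl <;> omega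
  · intro z hz w hw hzw
    rw [Finset.mem_insert, Finset.mem_singleton] at hz hw
    rcases hz with rfl | rfl <;> rcases hw with rfl | rfl
    · rfl
    · exact absurd hzw h1
    · exact absurd hzw h2
    · rfl

lemma Sym.neg {W F : Finset ℤ} {d : ℕ} (h : Sym W F d) : Sym W (-F) d := by
  obtain ⟨X, h1, ⟨M, h2⟩, h3, h4⟩ := h
  refine ⟨-X, Finset.neg_subset_neg h1, ⟨-M, ?_⟩, by rw [Finset.card_neg, h3], ?_⟩
  · intro x hx
    rw [Finset.mem_neg'] at hx ⊢
    have := h2 _ hx
    have e : -(-M - x) = M - -x := by ring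
    rw [e]; exact this
  · intro x hx y hy hxy
    rw [Finset.mem_neg'] at hx hy
    have := h4 _ hy _ hx (by have e : -y - -x = x - y := by ring
                             rw [e]; exact hxy)
    omega

/-- the sum of two symmetric sets -/
lemma sym_add {W F G X : Finset ℤ} {a b : ℕ} (hW : (0 : ℤ) ∈ W) (hX : X ⊆ F)
    (hM : ∃ M : ℤ, ∀ x ∈ X, M - x ∈ X) (hc : X.card = 2 ^ a)
    (hd : ∀ x ∈ X, ∀ y ∈ X, x - y ∈ W → x = y) (hG : Sym (W + (X - X)) G b) :
    Sym W (F + G) (a + b) := by
  obtain ⟨M, hM⟩ := hM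
  obtain ⟨Y, h1, ⟨N, h2⟩, h3, h4⟩ := hG
  have key : ∀ x ∈ X, ∀ x' ∈ X, ∀ y ∈ Y, ∀ y' ∈ Y, (x + y) - (x' + y') ∈ W → x = x' ∧ y = y' := by
    intro x hx x' hx' y hy y' hy' h
    have hyy : y = y' := by
      apply h4 y hy y' hy'
      have e : y - y' = ((x + y) - (x' + y')) + (x' - x) := by ring
      rw [e]
      exact Finset.add_mem_add h (Finset.sub_mem_sub hx' hx)
    subst hyy
    refine ⟨hd x hx x' hx' ?_, rfl⟩
    have e : x - x' = (x + y) - (x' + y) := by ring
    rw [e]; exact h
  refine ⟨X + Y, Finset.add_subset_add hX h1, ⟨M + N, ?_⟩, ?_, ?_⟩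
  · intro z hz
    rw [Finset.mem_add] at hz
    obtain ⟨x, hx, y, hy, rfl⟩ := hz
    have e : M + N - (x + y) = (M - x) + (N - y) := by ring
    rw [e]
    exact Finset.add_mem_add (hM x hx) (h2 y hy)
  · have : (X + Y).card = X.card * Y.card := by
      rw [Finset.card_add_iff]
      rintro ⟨x, y⟩ hx ⟨x', y'⟩ hx' h
      simp only [Set.mem_prod, Finset.mem_coe] at hx hx'
      have h' : x + y = x' + y' := h
      have := key x hx.1 x' hx'.1 y hx.2 y' hx'.2 (by rw [h', sub_self]; exact hW)
      rw [this.1, this.2]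
    rw [this, hc, h3, pow_add]
  · intro z hz w hw hzw
    rw [Finset.mem_add] at hz hw
    obtain ⟨x, hx, y, hy, rfl⟩ := hz
    obtain ⟨x', hx', y', hy', rfl⟩ := hw
    have := key x hx x' hx' y hy y' hy' hzw
    rw [this.1, this.2]

lemma card_shift {W X : Finset ℤ} {a : ℕ} (hc : X.card = 2 ^ a) :
    (W + (X - X)).card ≤ W.card * 4 ^ a := by
  refine le_trans Finset.card_add_le (Nat.mul_le_mul_left _ (le_trans Finset.card_sub_le ?_))
  rw [hc, ← mul_pow]
  norm_num

/-- no pair at a difference outside `W`: few elements -/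
lemma card_le_of_not_sym_one {W F : Finset ℤ} (h : ¬ Sym W F 1) (hW : (0 : ℤ) ∈ W) :
    F.card ≤ 2 * W.card := by
  by_cases hF : F.Nonempty
  · obtain ⟨x, hx⟩ := hF
    have hsub : F ⊆ (W.image (fun w => x + w)) ∪ (W.image (fun w => x - w)) := by
      intro y hy
      rw [Finset.mem_union, Finset.mem_image, Finset.mem_image]
      by_contra hcon
      push Not at hcon
      apply h
      apply sym_one hx hy
      · rintro rfl
        exact hcon.1 0 hW (by ring)
      · intro hh
        exact hcon.2 _ hh (by ring)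
      · intro hh
        exact hcon.1 _ hh (by ring)
    refine le_trans (Finset.card_le_card hsub) (le_trans (Finset.card_union_le _ _) ?_)
    have h1 : (W.image (fun w => x + w)).card ≤ W.card := Finset.card_image_le
    have h2 : (W.image (fun w => x - w)).card ≤ W.card := Finset.card_image_le
    omega
  · rw [Finset.not_nonempty_iff_eq_empty] at hF
    simp [hF]

/-- exponents -/
def ex : ℕ → ℕ
  | 0 => 1
  | d + 1 => 4 * d + 3

lemma ex_mono : Monotone ex := by
  apply monotone_nat_of_le_succ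
  intro n
  cases n with
  | zero => simp [ex]
  | succ n => simp only [ex]; omega

/-- the largest `a ≤ d` with `Sym W F a` -/
lemma exists_max_sym {W F : Finset ℤ} (hF : F.Nonempty) {d : ℕ} (h : ¬ Sym W F (d + 1)) :
    ∃ a ≤ d, Sym W F a ∧ ¬ Sym W F (a + 1) := by
  induction d with
  | zero => exact ⟨0, le_rfl, sym_zero hF, h⟩
  | succ d ih =>
    by_cases h' : Sym W F (d + 1)
    · exact ⟨d + 1, le_rfl, h', h⟩
    · obtain ⟨a, ha, h1, h2⟩ := ih h'
      exact ⟨a, by omega, h1, h2⟩

/-- the bound for a sum of two sets without large symmetric subsets -/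
lemma sum_bound {S L : ℕ} {W : Finset ℤ} (hW : (0 : ℤ) ∈ W) {d : ℕ} (hd : 1 ≤ d)
    (hL : W.card * 4 ^ d ≤ L) (hS : 1 ≤ S) {G H : Finset ℤ} (hG : G.Nonempty)
    (hGb : ∀ a < d, ∀ V : Finset ℤ, (0 : ℤ) ∈ V → V.card * 4 ^ a ≤ L → ¬ Sym V G (a + 1) →
      G.card ≤ (4 * S * L) ^ ex a)
    (hHb : ∀ a < d, ∀ V : Finset ℤ, (0 : ℤ) ∈ V → V.card * 4 ^ a ≤ L → ¬ Sym V H (a + 1) →
      H.card ≤ (4 * S * L) ^ ex a)
    (h1 : ¬ Sym W G d) (h2 : ¬ Sym W H d) (h3 : ¬ Sym W (G + H) (d + 1)) :
    G.card * H.card ≤ (4 * S * L) ^ (ex d - 1) := by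
  obtain ⟨d, rfl⟩ : ∃ e, d = e + 1 := ⟨d - 1, by omega⟩
  have hW1 : 1 ≤ W.card := Finset.card_pos.2 ⟨0, hW⟩
  have hL1 : 1 ≤ L := le_trans (Nat.mul_pos (by omega) (by positivity)) hL
  have hY : 1 ≤ 4 * S * L := Nat.mul_pos (by omega) (by omega)
  obtain ⟨a, ha, hGa, hGa'⟩ := exists_max_sym hG h1
  have hWa : ∀ b ≤ d + 1, W.card * 4 ^ b ≤ L := by
    intro b hb
    exact le_trans (Nat.mul_le_mul_left _ (Nat.pow_le_pow_right (by norm_num) hb)) hL
  have hGc : G.card ≤ (4 * S * L) ^ ex a := hGb a (by omega) W hW (hWa a (by omega)) hGa'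
  rcases Nat.eq_zero_or_pos a with rfl | hapos
  · have hHc : H.card ≤ (4 * S * L) ^ ex d := hHb d (by omega) W hW (hWa d (by omega)) h2
    calc G.card * H.card ≤ (4 * S * L) ^ ex 0 * (4 * S * L) ^ ex d := Nat.mul_le_mul hGc hHc
      _ = (4 * S * L) ^ (ex 0 + ex d) := by rw [pow_add]
      _ ≤ (4 * S * L) ^ (ex (d + 1) - 1) := by
        apply Nat.pow_le_pow_right hY
        cases d with
        | zero => simp [ex]
        | succ d => simp only [ex]; omega
  · obtain ⟨X, hX, hM, hc, hdd⟩ := hGa
    have h4 : ¬ Sym (W + (X - X)) H (d + 1 - a + 1) := by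
      intro hh
      apply h3
      have := sym_add hW hX hM hc hdd hh
      have e : a + (d + 1 - a + 1) = d + 1 + 1 := by omega
      rwa [e] at this
    have hXne : X.Nonempty := by
      rw [← Finset.card_pos, hc]; positivity
    obtain ⟨x0, hx0⟩ := hXne
    have h0 : (0 : ℤ) ∈ W + (X - X) := by
      have := Finset.add_mem_add hW (Finset.sub_mem_sub hx0 hx0)
      simpa using this
    have h5 : (W + (X - X)).card * 4 ^ (d + 1 - a) ≤ L := by
      calc (W + (X - X)).card * 4 ^ (d + 1 - a) ≤ (W.card * 4 ^ a) * 4 ^ (d + 1 - a) :=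
            Nat.mul_le_mul_right _ (card_shift hc)
        _ = W.card * 4 ^ (a + (d + 1 - a)) := by rw [mul_assoc, ← pow_add]
        _ = W.card * 4 ^ (d + 1) := by congr 2; omega
        _ ≤ L := hL
    have hHc := hHb (d + 1 - a) (by omega) _ h0 h5 h4
    calc G.card * H.card ≤ (4 * S * L) ^ ex a * (4 * S * L) ^ ex (d + 1 - a) :=
          Nat.mul_le_mul hGc hHc
      _ = (4 * S * L) ^ (ex a + ex (d + 1 - a)) := by rw [pow_add]
      _ ≤ (4 * S * L) ^ (ex (d + 1) - 1) := by
        apply Nat.pow_le_pow_right hY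
        obtain ⟨a', rfl⟩ : ∃ a', a = a' + 1 := ⟨a - 1, by omega⟩
        obtain ⟨e, he⟩ : ∃ e, d + 1 - (a' + 1) = e + 1 := ⟨d + 1 - (a' + 1) - 1, by omega⟩
        rw [he]
        simp only [ex]
        omega

lemma not_sym_neg {W F : Finset ℤ} {d : ℕ} (h : ¬ Sym W F d) : ¬ Sym W (-F) d := by
  intro hh
  apply h
  have := hh.neg
  rwa [neg_neg] at this

/-- the local step -/
lemma local_step_sym {S L : ℕ} {F : ℕ → Finset ℤ} (h : IsComp S F) {d : ℕ} (hd : 1 ≤ d)
    {W : Finset ℤ} (hW : (0 : ℤ) ∈ W) (hL : W.card * 4 ^ d ≤ L)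
    (ih : ∀ a < d, ∀ V : Finset ℤ, (0 : ℤ) ∈ V → V.card * 4 ^ a ≤ L → ∀ i < S,
      ¬ Sym V (F i) (a + 1) → (F i).card ≤ (4 * S * L) ^ ex a)
    (u : ℕ) (hu : u < S) (h1 : Sym W (F u) d) (h2 : ¬ Sym W (F u) (d + 1)) :
    ∃ E : Finset ℤ, E.card ≤ (4 * S * L) ^ (ex d - 1) ∧
      ∀ x ∈ F u, x ∈ E ∨ ∃ v < u, Sym W (F v) d ∧ ∃ s : ℤ, (s = 1 ∨ s = -1) ∧ ∃ c : ℤ,
        (∀ y ∈ F v, s * y + c ∈ F u) ∧ ∃ y ∈ F v, x = s * y + c := by
  have hS : 1 ≤ S := by omega
  have hne := h.nonempty
  have hW1 : 1 ≤ W.card := Finset.card_pos.2 ⟨0, hW⟩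
  have hL1 : 1 ≤ L := le_trans (Nat.mul_pos (by omega) (by positivity)) hL
  have hY : 4 ≤ 4 * S * L := by nlinarith [Nat.mul_le_mul hS hL1]
  have hWa : ∀ b ≤ d, W.card * 4 ^ b ≤ L := by
    intro b hb
    exact le_trans (Nat.mul_le_mul_left _ (Nat.pow_le_pow_right (by norm_num) hb)) hL
  rcases h u hu with ⟨c, hc⟩ | ⟨j, hj, k, hk, h3⟩
  · exfalso
    obtain ⟨X, hX, _, hcX, _⟩ := h1
    have h4 := Finset.card_le_card hX
    rw [hc, Finset.card_singleton, hcX] at h4
    have : 2 ^ 1 ≤ 2 ^ d := Nat.pow_le_pow_right (by norm_num) hd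
    omega
  · have hjS : j < S := by omega
    have hkS : k < S := by omega
    have hjn := hne j hjS
    have hkn := hne k hkS
    rcases h3 with h3 | h3
    · -- union
      classical
      have small : ∀ v, v < S → ¬ Sym W (F v) d → (F v).card ≤ (4 * S * L) ^ ex (d - 1) := by
        intro v hv hvd
        apply ih (d - 1) (by omega) W hW (hWa _ (by omega)) v hv
        have e : d - 1 + 1 = d := by omega
        rwa [e]
      refine ⟨(if Sym W (F j) d then ∅ else F j) ∪ (if Sym W (F k) d then ∅ else F k), ?_, ?_⟩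
      · have h5 : (if Sym W (F j) d then ∅ else F j).card ≤ (4 * S * L) ^ ex (d - 1) := by
          split_ifs with hh
          · simp
          · exact small j hjS hh
        have h6 : (if Sym W (F k) d then ∅ else F k).card ≤ (4 * S * L) ^ ex (d - 1) := by
          split_ifs with hh
          · simp
          · exact small k hkS hh
        calc _ ≤ _ := Finset.card_union_le _ _
          _ ≤ (4 * S * L) ^ ex (d - 1) + (4 * S * L) ^ ex (d - 1) := add_le_add h5 h6
          _ = 2 * (4 * S * L) ^ ex (d - 1) := by ring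
          _ ≤ (4 * S * L) * (4 * S * L) ^ ex (d - 1) := Nat.mul_le_mul_right _ (by omega)
          _ = (4 * S * L) ^ (ex (d - 1) + 1) := by rw [pow_succ]; ring
          _ ≤ (4 * S * L) ^ (ex d - 1) := by
            apply Nat.pow_le_pow_right (by omega)
            obtain ⟨e, rfl⟩ : ∃ e, d = e + 1 := ⟨d - 1, by omega⟩
            rw [Nat.add_sub_cancel]
            cases e with
            | zero => simp [ex]
            | succ e => simp only [ex]; omega
      · intro x hx
        rw [h3, Finset.mem_union] at hx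
        rcases hx with hx | hx
        · by_cases hh : Sym W (F j) d
          · right
            refine ⟨j, hj, hh, 1, Or.inl rfl, 0, ?_, x, hx, by ring⟩
            intro y hy
            rw [h3, Finset.mem_union]
            left; simpa using hy
          · left; rw [Finset.mem_union, if_neg hh]; exact Or.inl hx
        · by_cases hh : Sym W (F k) d
          · right
            refine ⟨k, hk, hh, 1, Or.inl rfl, 0, ?_, x, hx, by ring⟩
            intro y hy
            rw [h3, Finset.mem_union]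
            right; simpa using hy
          · left; rw [Finset.mem_union, if_neg hh]; exact Or.inr hx
    · by_cases hj' : Sym W (F j) d
      · -- the first summand is heavy
        refine ⟨∅, by simp, ?_⟩
        intro x hx
        right
        rcases h3 with h3 | h3
        · rw [h3, Finset.mem_add] at hx
          obtain ⟨y, hy, z, hz, rfl⟩ := hx
          refine ⟨j, hj, hj', 1, Or.inl rfl, z, ?_, y, hy, by ring⟩
          intro y' hy'
          rw [h3, one_mul]
          exact Finset.add_mem_add hy' hz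
        · rw [h3, Finset.mem_sub] at hx
          obtain ⟨y, hy, z, hz, rfl⟩ := hx
          refine ⟨j, hj, hj', 1, Or.inl rfl, -z, ?_, y, hy, by ring⟩
          intro y' hy'
          rw [h3, one_mul, ← sub_eq_add_neg]
          exact Finset.sub_mem_sub hy' hz
      by_cases hk' : Sym W (F k) d
      · refine ⟨∅, by simp, ?_⟩
        intro x hx
        right
        rcases h3 with h3 | h3
        · rw [h3, Finset.mem_add] at hx
          obtain ⟨y, hy, z, hz, rfl⟩ := hx
          refine ⟨k, hk, hk', 1, Or.inl rfl, y, ?_, z, hz, by ring⟩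
          intro z' hz'
          have e : 1 * z' + y = y + z' := by ring
          rw [h3, e]
          exact Finset.add_mem_add hy hz'
        · rw [h3, Finset.mem_sub] at hx
          obtain ⟨y, hy, z, hz, rfl⟩ := hx
          refine ⟨k, hk, hk', -1, Or.inr rfl, y, ?_, z, hz, by ring⟩
          intro z' hz'
          have e : -1 * z' + y = y - z' := by ring
          rw [h3, e]
          exact Finset.sub_mem_sub hy hz'
      · -- both are light
        refine ⟨F u, ?_, fun x hx => Or.inl hx⟩
        rcases h3 with h3 | h3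
        · rw [h3]
          refine le_trans Finset.card_add_le ?_
          rw [h3] at h2
          exact sum_bound hW hd hL hS hjn
            (fun a ha V hV hVL hn => ih a ha V hV hVL j hjS hn)
            (fun a ha V hV hVL hn => ih a ha V hV hVL k hkS hn) hj' hk' h2
        · rw [h3]
          refine le_trans Finset.card_sub_le ?_
          rw [h3, sub_eq_add_neg] at h2
          have := sum_bound hW hd hL hS hjn (H := -F k)
            (fun a ha V hV hVL hn => ih a ha V hV hVL j hjS hn)
            (fun a ha V hV hVL hn => by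
              rw [Finset.card_neg]
              refine ih a ha V hV hVL k hkS ?_
              have := not_sym_neg hn
              rwa [neg_neg] at this) hj' (not_sym_neg hk') h2
          rwa [Finset.card_neg] at this

/-- few contexts for a heavy gate -/
lemma ctx_card {L : ℕ} {W F G P : Finset ℤ} {d : ℕ} (hW : (0 : ℤ) ∈ W)
    (hL : W.card * 4 ^ d ≤ L) (hG : Sym W G d) (hF : ¬ Sym W F (d + 1)) {s : ℤ}
    (hs : s = 1 ∨ s = -1) (hP : ∀ c ∈ P, ∀ y ∈ G, s * y + c ∈ F) : P.card ≤ 2 * L := by
  have key : ∀ H : Finset ℤ, Sym W H d → (∀ c ∈ P, ∀ y ∈ H, y + c ∈ F) → P.card ≤ 2 * L := by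
    intro H hH hPH
    obtain ⟨X, hX, hM, hc, hdd⟩ := hH
    have hXne : X.Nonempty := by
      rw [← Finset.card_pos, hc]; positivity
    obtain ⟨x0, hx0⟩ := hXne
    have h0 : (0 : ℤ) ∈ W + (X - X) := by
      have := Finset.add_mem_add hW (Finset.sub_mem_sub hx0 hx0)
      simpa using this
    have h1 : ¬ Sym (W + (X - X)) P 1 := by
      intro hh
      apply hF
      refine (sym_add hW hX hM hc hdd hh).mono ?_
      intro z hz
      rw [Finset.mem_add] at hz
      obtain ⟨y, hy, c, hc, rfl⟩ := hz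
      exact hPH c hc y hy
    refine le_trans (card_le_of_not_sym_one h1 h0) ?_
    exact Nat.mul_le_mul_left 2 (le_trans (card_shift hc) hL)
  rcases hs with rfl | rfl
  · exact key G hG (fun c hc y hy => by simpa using hP c hc y hy)
  · refine key (-G) hG.neg (fun c hc y hy => ?_)
    rw [Finset.mem_neg'] at hy
    have := hP c hc _ hy
    have e : -1 * -y + c = y + c := by ring
    rwa [e] at this

/-- **Main lemma, second form.** -/
theorem card_le_sym_aux {S L : ℕ} {F : ℕ → Finset ℤ} (h : IsComp S F) :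
    ∀ d : ℕ, ∀ W : Finset ℤ, (0 : ℤ) ∈ W → W.card * 4 ^ d ≤ L → ∀ i < S,
      ¬ Sym W (F i) (d + 1) → (F i).card ≤ (4 * S * L) ^ ex d := by
  intro d
  induction d using Nat.strong_induction_on with
  | _ d ih =>
    intro W hW hL i hi hm
    have hS : 1 ≤ S := by omega
    have hW1 : 1 ≤ W.card := Finset.card_pos.2 ⟨0, hW⟩
    have hL1 : 1 ≤ L := le_trans (Nat.mul_pos (by omega) (by positivity)) hL
    have hY : 4 ≤ 4 * S * L := by nlinarith [Nat.mul_le_mul hS hL1]
    rcases Nat.eq_zero_or_pos d with rfl | hd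
    · have h1 := card_le_of_not_sym_one hm hW
      have h2 : ex 0 = 1 := rfl
      rw [h2, pow_one]
      rw [pow_zero, mul_one] at hL
      calc (F i).card ≤ 2 * W.card := h1
        _ ≤ 2 * L := Nat.mul_le_mul_left _ hL
        _ ≤ 4 * S * L := Nat.mul_le_mul_right _ (by omega)
    by_cases hlt : ¬ Sym W (F i) d
    · have h1 := ih (d - 1) (by omega) W hW
        (le_trans (Nat.mul_le_mul_left _ (Nat.pow_le_pow_right (by norm_num) (by omega))) hL) i hi
        (by have e : d - 1 + 1 = d := by omega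
            rwa [e])
      exact le_trans h1 (Nat.pow_le_pow_right (by omega) (ex_mono (by omega)))
    rw [not_not] at hlt
    have loc := fun u (hu : u < S) (h1 : Sym W (F u) d) (h2 : ¬ Sym W (F u) (d + 1)) =>
      local_step_sym h hd hW hL (fun a ha V hV hVL i hi hn => ih a ha V hV hVL i hi hn) u hu h1 h2
    choose! E hEc hE using loc
    -- covering
    have sub : ∀ v : ℕ, ∀ s : ℤ, (s = 1 ∨ s = -1) → ∀ c : ℤ, (∀ y ∈ F v, s * y + c ∈ F i) →
        ¬ Sym W (F v) (d + 1) := by
      intro v s hs c hc hv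
      apply hm
      have h0 : Sym W {c} 0 := sym_zero ⟨c, by simp⟩
      have tr : ∀ H : Finset ℤ, Sym W H (d + 1) → (∀ y ∈ H, y + c ∈ F i) →
          Sym W (F i) (d + 1) := by
        intro H hH hy
        obtain ⟨X, hX, ⟨M, hM⟩, hcX, hdd⟩ := hH
        refine ⟨X.image (fun x => x + c), ?_, ⟨M + 2 * c, ?_⟩, ?_, ?_⟩
        · intro z hz
          rw [Finset.mem_image] at hz
          obtain ⟨x, hx, rfl⟩ := hz
          exact hy x (hX hx)
        · intro z hz
          rw [Finset.mem_image] at hz ⊢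
          obtain ⟨x, hx, rfl⟩ := hz
          exact ⟨M - x, hM x hx, by ring⟩
        · rw [Finset.card_image_of_injective _ (add_left_injective c), hcX]
        · intro z hz w hw hzw
          rw [Finset.mem_image] at hz hw
          obtain ⟨x, hx, rfl⟩ := hz
          obtain ⟨y, hy, rfl⟩ := hw
          have e : x + c - (y + c) = x - y := by ring
          rw [e] at hzw
          rw [hdd x hx y hy hzw]
      rcases hs with rfl | rfl
      · exact tr (F v) hv (fun y hy => by simpa using hc y hy)
      · refine tr (-F v) hv.neg (fun y hy => ?_)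
        rw [Finset.mem_neg'] at hy
        have := hc _ hy
        have e : -1 * -y + c = y + c := by ring
        rwa [e] at this
    have cover : ∀ u < S, Sym W (F u) d → ∀ t : ℤ, (t = 1 ∨ t = -1) → ∀ b : ℤ,
        (∀ y ∈ F u, t * y + b ∈ F i) → ∀ x ∈ F u, ∃ v < S, Sym W (F v) d ∧
          ∃ s : ℤ, (s = 1 ∨ s = -1) ∧ ∃ c : ℤ, (∀ y ∈ F v, s * y + c ∈ F i) ∧
            ¬ Sym W (F v) (d + 1) ∧ ∃ y ∈ E v, t * x + b = s * y + c := by
      intro u
      induction u using Nat.strong_induction_on with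
      | _ u ihu =>
        intro hu hud t ht b hb x hx
        have hn := sub u t ht b hb
        rcases hE u hu hud hn x hx with hx' | ⟨v, hv, hvm, s, hs, c, hc, y, hy, hxy⟩
        · exact ⟨u, hu, hud, t, ht, b, hb, hn, x, hx', rfl⟩
        · have hts : t * s = 1 ∨ t * s = -1 := by
            rcases ht with rfl | rfl <;> rcases hs with rfl | rfl <;> simp
          have hb' : ∀ y ∈ F v, t * s * y + (t * c + b) ∈ F i := by
            intro y hy
            have := hb _ (hc y hy)
            have e : t * s * y + (t * c + b) = t * (s * y + c) + b := by ring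
            rw [e]; exact this
          obtain ⟨w, hw, hwm, s', hs', c', hc', hnw, z, hz, hyz⟩ :=
            ihu v hv (by omega) hvm (t * s) hts (t * c + b) hb' y hy
          refine ⟨w, hw, hwm, s', hs', c', hc', hnw, z, hz, ?_⟩
          rw [← hyz, hxy]; ring
    have hne := h.nonempty
    classical
    -- the finset of contexts
    let ctx : ℕ → ℤ → Finset ℤ := fun v s =>
      ((F i ×ˢ F v).image (fun p => p.1 - s * p.2)).filter (fun c => ∀ y ∈ F v, s * y + c ∈ F i)
    have hsub : F i ⊆ ((Finset.range S).filter (fun v => Sym W (F v) d ∧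
        ¬ Sym W (F v) (d + 1)) ×ˢ ({1, -1} : Finset ℤ)).biUnion
          (fun p => (ctx p.1 p.2 ×ˢ E p.1).image (fun q => p.2 * q.2 + q.1)) := by
      intro x hx
      obtain ⟨v, hv, hvm, s, hs, c, hc, hn, y, hy, hxy⟩ :=
        cover i hi hlt 1 (Or.inl rfl) 0 (fun y hy => by simpa using hy) x hx
      rw [Finset.mem_biUnion]
      refine ⟨(v, s), ?_, ?_⟩
      · rw [Finset.mem_product, Finset.mem_filter, Finset.mem_range]
        refine ⟨⟨hv, hvm, hn⟩, ?_⟩
        rcases hs with rfl | rfl <;> simp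
      · rw [Finset.mem_image]
        refine ⟨(c, y), ?_, by simp only; omega⟩
        rw [Finset.mem_product]
        refine ⟨?_, hy⟩
        show c ∈ ctx v s
        simp only [ctx]
        rw [Finset.mem_filter, Finset.mem_image]
        refine ⟨?_, hc⟩
        obtain ⟨y0, hy0⟩ := hne v hv
        exact ⟨(s * y0 + c, y0), Finset.mem_product.2 ⟨hc y0 hy0, hy0⟩, by ring⟩
    have h1 : (F i).card ≤ ∑ p ∈ ((Finset.range S).filter (fun v => Sym W (F v) d ∧
        ¬ Sym W (F v) (d + 1)) ×ˢ ({1, -1} : Finset ℤ)),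
          2 * L * (4 * S * L) ^ (ex d - 1) := by
      refine le_trans (Finset.card_le_card hsub) (le_trans Finset.card_biUnion_le ?_)
      apply Finset.sum_le_sum
      intro p hp
      rw [Finset.mem_product, Finset.mem_filter, Finset.mem_range, Finset.mem_insert,
        Finset.mem_singleton] at hp
      refine le_trans Finset.card_image_le ?_
      rw [Finset.card_product]
      apply Nat.mul_le_mul
      · refine ctx_card hW hL hp.1.2.1 hm hp.2 ?_
        intro c hc
        exact (Finset.mem_filter.1 hc).2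
      · exact hEc p.1 hp.1.1 hp.1.2.1 hp.1.2.2
    have h2 : ((Finset.range S).filter (fun v => Sym W (F v) d ∧
        ¬ Sym W (F v) (d + 1)) ×ˢ ({1, -1} : Finset ℤ)).card ≤ S * 2 := by
      rw [Finset.card_product]
      apply Nat.mul_le_mul
      · exact le_trans (Finset.card_filter_le _ _) (by simp)
      · exact Finset.card_le_two
    rw [Finset.sum_const, smul_eq_mul] at h1
    have hex : ex d = (ex d - 1) + 1 := by
      have : 1 ≤ ex d := by
        cases d with
        | zero => simp [ex]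
        | succ d => simp only [ex]; omega
      omega
    calc (F i).card ≤ _ := h1
      _ ≤ S * 2 * (2 * L * (4 * S * L) ^ (ex d - 1)) := Nat.mul_le_mul_right _ h2
      _ = (4 * S * L) ^ (ex d - 1) * (4 * S * L) := by ring
      _ = (4 * S * L) ^ ex d := by rw [← pow_succ, ← hex]

/-- A set computed with `S` operations that contains no symmetric set with `2 ^ (d + 1)` elements
has at most `(4 S 4^d) ^ (4 d - 1)` elements, for `d ≥ 1`. -/
theorem card_le_sym {S : ℕ} {F : ℕ → Finset ℤ} (h : IsComp S F) (d : ℕ) (i : ℕ) (hi : i < S)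
    (hn : ¬ Sym {0} (F i) (d + 1)) : (F i).card ≤ (4 * S * 4 ^ d) ^ ex d :=
  card_le_sym_aux h d {0} (by simp) (by simp) i hi hn

end Pool.Agent.W305.ET
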